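import Mathlib

/-!
Amalgamated products of groups by their universal property; kernels of homomorphisms from an
amalgamated product to a group which split over the amalgamated subgroup; kernels of the
projections of a free product.
-/

set_option autoImplicit false

namespace Pool.Agent.H16.BB

open Function RegularWreathProduct

/-- `P` is the amalgamated product of `A` and `B` over `C`. -/
structure IsAmalg {C A B P : Type} [Group C] [Group A] [Group B] [Group P]
    (i : C →* A) (j : C →* B) (k : A →* P) (l : B →* P) : Prop where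
  comm : k.comp i = l.comp j
  desc : ∀ (M : Type) [Group M] (f : A →* M) (g : B →* M), f.comp i = g.comp j →
    ∃ h : P →* M, h.comp k = f ∧ h.comp l = g
  uniq : ∀ (M : Type) [Group M] (h h' : P →* M),
    h.comp k = h'.comp k → h.comp l = h'.comp l → h = h'

/-- The restriction of `k` to the kernels of homomorphisms to `Q`. -/
def kerMap {A P Q : Type} [Group A] [Group P] [Group Q] {φA : A →* Q} {φP : P →* Q} {k : A →* P}
    (hk : φP.comp k = φA) : φA.ker →* φP.ker :=
  (k.comp φA.ker.subtype).codRestrict φP.ker fun x => by
    have h1 := DFunLike.congr_fun hk x.1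
    have h2 : φA x.1 = 1 := x.2
    rw [MonoidHom.comp_apply] at h1
    rw [MonoidHom.mem_ker, MonoidHom.comp_apply, Subgroup.coe_subtype, h1, h2]

@[simp]
theorem kerMap_coe {A P Q : Type} [Group A] [Group P] [Group Q] {φA : A →* Q} {φP : P →* Q}
    {k : A →* P} (hk : φP.comp k = φA) (x : φA.ker) : (kerMap hk x : P) = k x := rfl

theorem kerMap_injective {A P Q : Type} [Group A] [Group P] [Group Q] {φA : A →* Q} {φP : P →* Q}
    {k : A →* P} (hk : φP.comp k = φA) (hinj : Injective k) : Injective (kerMap hk) := by
  intro x y hxy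
  apply Subtype.ext
  apply hinj
  exact congrArg Subtype.val hxy

section Ind

variable {A Q M : Type} [Group A] [Group Q] [Group M] {φ : A →* Q} {s : Q →* A}

theorem ind_mem (hs : ∀ q, φ (s q) = q) (a : A) (n : Q) :
    (s n)⁻¹ * a * s ((φ a)⁻¹ * n) ∈ φ.ker := by
  rw [MonoidHom.mem_ker, map_mul, map_mul, map_inv, hs, hs]
  group

/-- The homomorphism to the wreath product induced from a homomorphism on the kernel. -/
def ind (hs : ∀ q, φ (s q) = q) (f : φ.ker →* M) : A →* M ≀ᵣ Q where
  toFun a := ⟨fun n => f ⟨(s n)⁻¹ * a * s ((φ a)⁻¹ * n), ind_mem hs a n⟩, φ a⟩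
  map_one' := by
    ext n
    · have h1 : (⟨(s n)⁻¹ * 1 * s ((φ 1)⁻¹ * n), ind_mem hs 1 n⟩ : φ.ker) = 1 := by
        apply Subtype.ext
        simp
      change f _ = 1
      rw [h1, map_one]
    · simp
  map_mul' a b := by
    ext n
    · simp only [mul_left, Pi.mul_apply]
      rw [← map_mul]
      congr 1
      apply Subtype.ext
      simp only [Subgroup.coe_mul, map_mul, mul_inv_rev]
      group
    · simp

theorem ind_left_one (hs : ∀ q, φ (s q) = q) (f : φ.ker →* M) (x : φ.ker) :
    (ind hs f x.1).left 1 = f x := by
  change f _ = f x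
  congr 1
  apply Subtype.ext
  have h1 : φ x.1 = 1 := x.2
  simp [h1]

theorem ind_right (hs : ∀ q, φ (s q) = q) (f : φ.ker →* M) (a : A) :
    (ind hs f a).right = φ a := rfl

end Ind

/-- Kernels of homomorphisms from an amalgamated product to `Q` which split over the amalgamated
subgroup. -/
theorem IsAmalg.ker {C A B P Q : Type} [Group C] [Group A] [Group B] [Group P] [Group Q]
    {i : C →* A} {j : C →* B} {k : A →* P} {l : B →* P} (H : IsAmalg i j k l)
    {φC : C →* Q} {φA : A →* Q} {φB : B →* Q} {φP : P →* Q}
    (hi : φA.comp i = φC) (hj : φB.comp j = φC) (hk : φP.comp k = φA) (hl : φP.comp l = φB)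
    (s : Q →* C) (hs : ∀ q, φC (s q) = q) :
    IsAmalg (kerMap hi) (kerMap hj) (kerMap hk) (kerMap hl) := by
  have hsA : ∀ q, φA ((i.comp s) q) = q := fun q => by
    have h1 := DFunLike.congr_fun hi (s q)
    rw [hs] at h1
    exact h1
  have hsB : ∀ q, φB ((j.comp s) q) = q := fun q => by
    have h1 := DFunLike.congr_fun hj (s q)
    rw [hs] at h1
    exact h1
  have hsP : ∀ q, φP ((k.comp (i.comp s)) q) = q := fun q => by
    have h1 := DFunLike.congr_fun hk (i (s q))
    exact h1.trans (hsA q)
  have hcomm : ∀ x, k (i x) = l (j x) := fun x => DFunLike.congr_fun H.comm x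
  have hkA : ∀ x, φP (k x) = φA x := fun x => DFunLike.congr_fun hk x
  have hlB : ∀ x, φP (l x) = φB x := fun x => DFunLike.congr_fun hl x
  have hiA : ∀ x, φA (i x) = φC x := fun x => DFunLike.congr_fun hi x
  have hjB : ∀ x, φB (j x) = φC x := fun x => DFunLike.congr_fun hj x
  refine ⟨?_, ?_, ?_⟩
  · ext x
    exact hcomm x.1
  · intro M _ f g hfg
    obtain ⟨Φ, hΦk, hΦl⟩ := H.desc (M ≀ᵣ Q) (ind hsA f) (ind hsB g) (by
      ext x : 1
      ext n
      · change f _ = g _
        have h1 := DFunLike.congr_fun hfg ⟨(s n)⁻¹ * x * s ((φC x)⁻¹ * n), ind_mem hs x n⟩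
        rw [MonoidHom.comp_apply, MonoidHom.comp_apply] at h1
        convert h1 using 2
        · apply Subtype.ext
          simp [hiA]
        · apply Subtype.ext
          simp [hjB]
      · change φA (i x) = φB (j x)
        rw [hiA, hjB])
    have hright : ∀ x, (Φ x).right = φP x := by
      have h1 : (rightHom : M ≀ᵣ Q →* Q).comp Φ = φP := by
        apply H.uniq
        · rw [MonoidHom.comp_assoc, hΦk, hk]
          rfl
        · rw [MonoidHom.comp_assoc, hΦl, hl]
          rfl
      intro x
      exact DFunLike.congr_fun h1 x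
    refine ⟨⟨⟨fun x => (Φ x.1).left 1, ?_⟩, ?_⟩, ?_, ?_⟩
    · simp
    · intro x y
      have h1 : (Φ x.1).right = 1 := (hright x.1).trans x.2
      simp [h1]
    · ext x
      change (Φ (k x.1)).left 1 = f x
      rw [← ind_left_one hsA f x, ← hΦk]
      rfl
    · ext x
      change (Φ (l x.1)).left 1 = g x
      rw [← ind_left_one hsB g x, ← hΦl]
      rfl
  · intro M _ h h' hhk hhl
    have h1 : ind hsP h = ind hsP h' := by
      apply H.uniq
      · ext a : 1
        ext n
        · change h _ = h' _
          have h2 := DFunLike.congr_fun hhk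
            ⟨((i.comp s) n)⁻¹ * a * (i.comp s) ((φA a)⁻¹ * n), ind_mem hsA a n⟩
          change h (kerMap hk _) = h' (kerMap hk _) at h2
          convert h2 using 2
          · apply Subtype.ext
            simp [hkA]
          · apply Subtype.ext
            simp [hkA]
        · rfl
      · ext b : 1
        ext n
        · change h _ = h' _
          have h2 := DFunLike.congr_fun hhl
            ⟨((j.comp s) n)⁻¹ * b * (j.comp s) ((φB b)⁻¹ * n), ind_mem hsB b n⟩
          change h (kerMap hl _) = h' (kerMap hl _) at h2
          convert h2 using 2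
          · apply Subtype.ext
            simp [hlB, hcomm]
          · apply Subtype.ext
            simp [hlB, hcomm]
        · rfl
    ext x
    rw [← ind_left_one hsP h x, h1, ind_left_one hsP h' x]

/-- `K` is the free product of copies of `G`, embedded by the homomorphisms `κ`. -/
structure IsFree {I G K : Type} [Group G] [Group K] (κ : I → G →* K) : Prop where
  desc : ∀ (M : Type) [Group M] (f : I → G →* M), ∃ h : K →* M, ∀ n, h.comp (κ n) = f n
  uniq : ∀ (M : Type) [Group M] (h h' : K →* M), (∀ n, h.comp (κ n) = h'.comp (κ n)) → h = h'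

/-- A free product of copies of `G` indexed by `I`, where `I` has the same cardinality as the
disjoint union of `I` and a point, is the free product of `G` and of itself. -/
theorem IsFree.amalg {I G K : Type} [Group G] [Group K] {κ : I → G →* K} (H : IsFree κ)
    (e : Option I ≃ I) :
    ∃ (l : K →* K), (∀ n, l.comp (κ n) = κ (e (some n))) ∧
      IsAmalg (1 : Unit →* G) (1 : Unit →* K) (κ (e none)) l := by
  obtain ⟨l, hl⟩ := H.desc K fun n => κ (e (some n))
  refine ⟨l, hl, ?_, ?_, ?_⟩
  · rw [MonoidHom.comp_one, MonoidHom.comp_one]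
  · intro M _ f g _
    obtain ⟨h, hh⟩ := H.desc M fun n => match e.symm n with
      | none => f
      | some m => g.comp (κ m)
    refine ⟨h, ?_, ?_⟩
    · rw [hh, Equiv.symm_apply_apply]
    · apply H.uniq
      intro n
      rw [MonoidHom.comp_assoc, hl, hh, Equiv.symm_apply_apply]
  · intro M _ h h' h1 h2
    apply H.uniq
    intro n
    obtain ⟨m, rfl⟩ := e.surjective n
    cases m with
    | none => exact h1
    | some m => rw [← hl, ← MonoidHom.comp_assoc, h2, MonoidHom.comp_assoc]

/-- The conjugates of the first factor in the kernel of the projection of a free product. -/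
def conjMap {G P Q : Type} [Group G] [Group P] [Group Q] {φ : P →* Q} (k : G →* P) (l : Q →* P)
    (hk : ∀ g, φ (k g) = 1) (q : Q) : G →* φ.ker where
  toFun g := ⟨l q * k g * (l q)⁻¹, by
    rw [MonoidHom.mem_ker, map_mul, map_mul, map_inv, hk]
    group⟩
  map_one' := by
    apply Subtype.ext
    simp
  map_mul' a b := by
    apply Subtype.ext
    simp

/-- The kernel of the projection of a free product to a factor is a free product of copies of the
other factor. -/
theorem isFree_ker {G P Q : Type} [Group G] [Group P] [Group Q] {φ : P →* Q} {k : G →* P}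
    {l : Q →* P} (H : IsAmalg (1 : Unit →* G) (1 : Unit →* Q) k l)
    (hk : ∀ g, φ (k g) = 1) (hl : ∀ q, φ (l q) = q) : IsFree (conjMap k l hk) := by
  refine ⟨?_, ?_⟩
  · intro M _ f
    let F : G →* M ≀ᵣ Q :=
      { toFun := fun g => ⟨fun n => f n⁻¹ g, 1⟩
        map_one' := by
          ext n
          · simp
          · rfl
        map_mul' := fun a b => by
          ext n
          · simp
          · simp }
    obtain ⟨Φ, hΦk, hΦl⟩ := H.desc (M ≀ᵣ Q) F inl (by
      rw [MonoidHom.comp_one, MonoidHom.comp_one])
    have hright : ∀ x, (Φ x).right = φ x := by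
      have h1 : (rightHom : M ≀ᵣ Q →* Q).comp Φ = φ := by
        apply H.uniq
        · rw [MonoidHom.comp_assoc, hΦk]
          ext g
          exact (hk g).symm
        · rw [MonoidHom.comp_assoc, hΦl]
          ext q
          exact (hl q).symm
      intro x
      exact DFunLike.congr_fun h1 x
    have hΦk' : ∀ g, Φ (k g) = F g := fun g => DFunLike.congr_fun hΦk g
    have hΦl' : ∀ g, Φ (l g) = inl g := fun g => DFunLike.congr_fun hΦl g
    refine ⟨⟨⟨fun x => (Φ x.1).left 1, ?_⟩, ?_⟩, ?_⟩
    · simp
    · intro x y
      have h1 : (Φ x.1).right = 1 := (hright x.1).trans x.2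
      simp [h1]
    · intro q
      ext g
      change (Φ (l q * k g * (l q)⁻¹)).left 1 = f q g
      rw [map_mul, map_mul, map_inv, hΦk', hΦl']
      simp [F]
  · intro M _ h h' hh
    have h1 : ind hl h = ind hl h' := by
      apply H.uniq
      · ext g : 1
        ext n
        · change h _ = h' _
          have h2 := DFunLike.congr_fun (hh n⁻¹) g
          rw [MonoidHom.comp_apply, MonoidHom.comp_apply] at h2
          convert h2 using 2
          · apply Subtype.ext
            simp [conjMap, hk]
          · apply Subtype.ext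
            simp [conjMap, hk]
        · rfl
      · ext q : 1
        ext n
        · change h _ = h' _
          have h3 : (⟨(l n)⁻¹ * l q * l ((φ (l q))⁻¹ * n), ind_mem hl (l q) n⟩ : φ.ker) = 1 := by
            apply Subtype.ext
            simp [hl]
          rw [h3, map_one, map_one]
        · rfl
    ext x
    rw [← ind_left_one hl h x, h1, ind_left_one hl h' x]

end Pool.Agent.H16.BB
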