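import Mathlib

/-!
Groups with an orientation character and functors on them; right-angled Artin groups; the
extension of the right-angled Artin group of a graph with a free group action by this group
(given by representatives of the edges), and the kernel of its homomorphism to the integers.
-/

set_option autoImplicit false

namespace Pool.Agent.H16.BB

open CategoryTheory Function

universe u

/-- A group with a character to `{1,-1}`. -/
structure OGrp where
  /-- the group -/
  G : Type
  [grp : Group G]
  /-- the character -/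
  w : G →* ℤˣ

attribute [instance] OGrp.grp

/-- Homomorphisms compatible with the characters. -/
@[ext]
structure OGrp.Hom (X Y : OGrp) where
  /-- the homomorphism -/
  f : X.G →* Y.G
  w_f : Y.w.comp f = X.w

instance : Category OGrp where
  Hom := OGrp.Hom
  id X := ⟨MonoidHom.id _, rfl⟩
  comp a b := ⟨b.f.comp a.f, by rw [← MonoidHom.comp_assoc, b.w_f, a.w_f]⟩

/-- The trivial group. -/
def one : OGrp := ⟨Unit, 1⟩

/-- Product with a group `K`; the character is that of the first factor. -/
def OGrp.prod (X : OGrp) (K : Type) [Group K] : OGrp :=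
  ⟨X.G × K, X.w.comp (MonoidHom.fst X.G K)⟩

/-- The projection `X × K → X`. -/
def OGrp.fst (X : OGrp) (K : Type) [Group K] : X.prod K ⟶ X :=
  OGrp.Hom.mk (MonoidHom.fst X.G K) rfl

/-- `X × ℤ`. -/
def OGrp.timesZ (X : OGrp) : OGrp := X.prod (Multiplicative ℤ)

/-- The projection `X × ℤ → X`. -/
def OGrp.pr (X : OGrp) : X.timesZ ⟶ X := X.fst (Multiplicative ℤ)

/-- Homomorphisms of abelian groups. -/
structure Hm (P Q : Type u) [AddCommGroup P] [AddCommGroup Q] where
  /-- the map -/
  f : P → Q
  add : ∀ x y, f (x + y) = f x + f y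

instance {P Q : Type u} [AddCommGroup P] [AddCommGroup Q] : CoeFun (Hm P Q) fun _ => P → Q :=
  ⟨Hm.f⟩

/-- The same as a bundled homomorphism of Mathlib. -/
def Hm.hom {P Q : Type u} [AddCommGroup P] [AddCommGroup Q] (s : Hm P Q) : P →+ Q :=
  AddMonoidHom.mk' s.f s.add

/-- Functors from groups with a character to abelian groups, one in each degree. -/
structure Fun where
  /-- the groups -/
  obj : ℤ → OGrp → Type u
  [ab : ∀ n X, AddCommGroup (obj n X)]
  /-- the induced maps -/
  map : ∀ n {X Y : OGrp}, (X ⟶ Y) → Hm (obj n X) (obj n Y)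
  map_id : ∀ n X x, map n (𝟙 X) x = x
  map_comp : ∀ n {X Y Z : OGrp} (a : X ⟶ Y) (b : Y ⟶ Z) x, map n (a ≫ b) x = map n b (map n a x)

attribute [instance] Fun.ab

/-- Natural homomorphisms in each degree. -/
structure Trans (h L : Fun.{u}) where
  /-- the homomorphisms -/
  app : ∀ n X, Hm (h.obj n X) (L.obj n X)
  nat : ∀ n {X Y : OGrp} (f : X ⟶ Y) x, app n Y (h.map n f x) = L.map n f (app n X x)

/-- The middle term of the Mayer-Vietoris sequence of a square. -/
def Mid (S : Fun.{u}) {Y X₁ X₂ Z : OGrp} (i : Y ⟶ X₁) (j : Y ⟶ X₂) (k₁ : X₁ ⟶ Z) (k₂ : X₂ ⟶ Z) :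
    Prop :=
  ∀ n s t, S.map n k₁ s = S.map n k₂ t ↔ ∃ a, S.map n i a = s ∧ S.map n j a = t

/-- The commutator. -/
def com {M : Type} [Group M] (a b : M) : M := a * b * a⁻¹ * b⁻¹

/-- The relations of the right-angled Artin group of a graph. -/
def raagRel {V : Type} (Γ : SimpleGraph V) : Set (FreeGroup V) :=
  {r | ∃ a b, Γ.Adj a b ∧ r = com (FreeGroup.of a) (FreeGroup.of b)}

/-- The right-angled Artin group of a graph: generated by the vertices, adjacent vertices
commute. -/
abbrev RAAG {V : Type} (Γ : SimpleGraph V) : Type := PresentedGroup (raagRel Γ)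

/-- Representatives of the edges of a graph with vertices `g v_i`, `g ∈ G`, `0 ≤ i < m`, on which
the group `G` acts by multiplication: `T i` is the set of all pairs `(j, g)`, `j < i`, such that
`g v_j` is adjacent to `v_i`. It is assumed to be finite, and not empty for `i > 0`. -/
structure Datum (G : Type) where
  /-- the number of orbits of vertices -/
  m : ℕ
  /-- the neighbours of `v_i` in the orbits before -/
  T : ℕ → Finset (ℕ × G)
  lt : ∀ i, ∀ p ∈ T i, p.1 < i
  ne : ∀ i, 0 < i → (T i).Nonempty

variable {G : Type} [Group G]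

/-- The generator `v_i`. -/
def vert (G : Type) [Group G] (i : ℕ) : Monoid.Coprod G (FreeGroup ℕ) :=
  Monoid.Coprod.inr (FreeGroup.of i)

/-- The conjugate `g v_i g⁻¹`, which stands for the vertex `g v_i` of the graph. -/
def vertConj (p : ℕ × G) : Monoid.Coprod G (FreeGroup ℕ) :=
  Monoid.Coprod.inl p.2 * vert G p.1 * (Monoid.Coprod.inl p.2)⁻¹

/-- The relations: `v_i` commutes with `g v_j g⁻¹` for `(j, g) ∈ T i`, and there is no `v_i` for
`i ≥ k`. -/
def Datum.rel (D : Datum G) (k : ℕ) : Set (Monoid.Coprod G (FreeGroup ℕ)) :=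
  {r | (∃ i, ∃ p ∈ D.T i, r = com (vert G i) (vertConj p)) ∨ ∃ i, k ≤ i ∧ r = vert G i}

/-- The group generated by `G` and the elements `v_i`, `i < k`, with these relations. -/
abbrev Datum.Grp (D : Datum G) (k : ℕ) : Type :=
  Monoid.Coprod G (FreeGroup ℕ) ⧸ Subgroup.normalClosure (D.rel k)

/-- The homomorphism from `Grp` given by a homomorphism `f` from `G` and elements `x i`. -/
def Datum.lift (D : Datum G) (k : ℕ) {M : Type} [Group M] (f : G →* M) (x : ℕ → M)
    (hx : ∀ i, ∀ p ∈ D.T i, Commute (x i) (f p.2 * x p.1 * (f p.2)⁻¹))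
    (h1 : ∀ i, k ≤ i → x i = 1) : D.Grp k →* M :=
  QuotientGroup.lift _ (Monoid.Coprod.lift f (FreeGroup.lift x)) (by
    refine Subgroup.normalClosure_le_normal (N := (Monoid.Coprod.lift f (FreeGroup.lift x)).ker) ?_
    rintro _ (⟨i, p, hp, rfl⟩ | ⟨i, hi, rfl⟩)
    · rw [SetLike.mem_coe, MonoidHom.mem_ker]
      have h2 : com (x i) (f p.2 * x p.1 * (f p.2)⁻¹) = 1 := by
        rw [com, (hx i p hp).eq]
        group
      rw [← h2]
      simp [com, vert, vertConj]
    · rw [SetLike.mem_coe, MonoidHom.mem_ker]
      simpa [vert] using h1 i hi)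

/-- The projection to `G`, with kernel the right-angled Artin group of the graph. -/
def Datum.ret (D : Datum G) (k : ℕ) : D.Grp k →* G :=
  D.lift k (MonoidHom.id G) (fun _ => 1) (fun _ _ _ => Commute.one_left _) fun _ _ => rfl

/-- The homomorphism to the integers which is trivial on `G` and `1` at all `v_i`, `i < k`. -/
def Datum.deg (D : Datum G) (k : ℕ) : D.Grp k →* Multiplicative ℤ :=
  D.lift k 1 (fun i => if i < k then Multiplicative.ofAdd 1 else 1)
    (fun _ _ _ => Commute.all _ _) fun _ hi => if_neg (not_lt.2 hi)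

/-- The kernel of `deg`, for the first `k` orbits: the extension of the Bestvina-Brady group of the
graph by `G`. The character is induced from `G`. -/
def kerGrp (X : OGrp) (D : Datum X.G) (k : ℕ) : OGrp :=
  ⟨(D.deg k).ker, (X.w.comp (D.ret k)).comp (D.deg k).ker.subtype⟩

end Pool.Agent.H16.BB
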