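import Mathlib
import Pool.Agent.H16.BB.Defs
import Pool.Agent.H16.BB.Amalg

/-!
The groups `D.Grp k` are iterated amalgamated products over finitely generated right-angled Artin
groups, and the kernels of `deg` are iterated amalgamated products over subgroups of right-angled
Artin groups, starting with a free product of infinitely many copies of `G`.
-/

set_option autoImplicit false

namespace Pool.Agent.H16.BB

open Function

theorem com_eq_one {M : Type} [Group M] {a b : M} : com a b = 1 ↔ Commute a b := by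
  rw [com, mul_inv_eq_one, mul_inv_eq_iff_eq_mul]
  exact Iff.rfl

theorem map_com {M N : Type} [Group M] [Group N] (f : M →* N) (a b : M) :
    f (com a b) = com (f a) (f b) := by
  simp [com]

section RAAG

variable {V : Type} {Γ : SimpleGraph V} {M : Type} [Group M]

/-- The homomorphism from a right-angled Artin group given by the images of the generators. -/
def raagLift (x : V → M) (hx : ∀ a b, Γ.Adj a b → Commute (x a) (x b)) : RAAG Γ →* M :=
  PresentedGroup.toGroup (f := x) (by
    rintro _ ⟨a, b, hab, rfl⟩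
    rw [map_com, com_eq_one]
    simpa using hx a b hab)

@[simp]
theorem raagLift_of (x : V → M) (hx : ∀ a b, Γ.Adj a b → Commute (x a) (x b)) (a : V) :
    raagLift x hx (PresentedGroup.of a) = x a :=
  PresentedGroup.toGroup.of _

theorem raag_comm {a b : V} (hab : Γ.Adj a b) :
    Commute (PresentedGroup.of a : RAAG Γ) (PresentedGroup.of b) := by
  rw [← com_eq_one]
  have h1 : (PresentedGroup.mk (raagRel Γ) (com (FreeGroup.of a) (FreeGroup.of b))) = 1 :=
    PresentedGroup.one_of_mem ⟨a, b, hab, rfl⟩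
  rw [map_com] at h1
  exact h1

theorem raag_hom_ext {h h' : RAAG Γ →* M}
    (H : ∀ a, h (PresentedGroup.of a) = h' (PresentedGroup.of a)) : h = h' :=
  PresentedGroup.ext H

end RAAG

namespace Datum

variable {G : Type} [Group G] (D : Datum G) (k : ℕ) {M : Type} [Group M]

/-- The inclusion of `G`. -/
def ι : G →* D.Grp k := (QuotientGroup.mk' _).comp Monoid.Coprod.inl

/-- The generators. -/
def v (i : ℕ) : D.Grp k := QuotientGroup.mk' _ (vert G i)

/-- The conjugates of the generators. -/
def cj (p : ℕ × G) : D.Grp k := D.ι k p.2 * D.v k p.1 * (D.ι k p.2)⁻¹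

theorem v_eq_one {i : ℕ} (hi : k ≤ i) : D.v k i = 1 :=
  (QuotientGroup.eq_one_iff _).2 (Subgroup.subset_normalClosure (Or.inr ⟨i, hi, rfl⟩))

theorem v_comm {i : ℕ} {p : ℕ × G} (hp : p ∈ D.T i) : Commute (D.v k i) (D.cj k p) := by
  rw [← com_eq_one]
  have h1 : QuotientGroup.mk' (Subgroup.normalClosure (D.rel k)) (com (vert G i) (vertConj p)) = 1 :=
    (QuotientGroup.eq_one_iff _).2 (Subgroup.subset_normalClosure (Or.inl ⟨i, p, hp, rfl⟩))
  rw [map_com] at h1
  rw [← h1]
  rfl

variable {k}

theorem lift_ι {f : G →* M} {x : ℕ → M}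
    {hx : ∀ i, ∀ p ∈ D.T i, Commute (x i) (f p.2 * x p.1 * (f p.2)⁻¹)}
    {h1 : ∀ i, k ≤ i → x i = 1} (g : G) : D.lift k f x hx h1 (D.ι k g) = f g :=
  Monoid.Coprod.lift_apply_inl f (FreeGroup.lift x) g

theorem lift_v {f : G →* M} {x : ℕ → M}
    {hx : ∀ i, ∀ p ∈ D.T i, Commute (x i) (f p.2 * x p.1 * (f p.2)⁻¹)}
    {h1 : ∀ i, k ≤ i → x i = 1} (i : ℕ) : D.lift k f x hx h1 (D.v k i) = x i :=
  (Monoid.Coprod.lift_apply_inr f (FreeGroup.lift x) (FreeGroup.of i)).trans (by simp)

theorem lift_cj {f : G →* M} {x : ℕ → M}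
    {hx : ∀ i, ∀ p ∈ D.T i, Commute (x i) (f p.2 * x p.1 * (f p.2)⁻¹)}
    {h1 : ∀ i, k ≤ i → x i = 1} (p : ℕ × G) :
    D.lift k f x hx h1 (D.cj k p) = f p.2 * x p.1 * (f p.2)⁻¹ := by
  rw [cj, map_mul, map_mul, map_inv, lift_ι, lift_v]

theorem hom_ext {h h' : D.Grp k →* M} (h1 : ∀ g, h (D.ι k g) = h' (D.ι k g))
    (h2 : ∀ i, i < k → h (D.v k i) = h' (D.v k i)) : h = h' := by
  apply QuotientGroup.monoidHom_ext
  apply Monoid.Coprod.hom_ext
  · ext g
    exact h1 g
  · apply FreeGroup.ext_hom
    intro i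
    rcases lt_or_ge i k with hi | hi
    · exact h2 i hi
    · have h3 : h (D.v k i) = h' (D.v k i) := by rw [v_eq_one D k hi, map_one, map_one]
      exact h3

/-- The graph with vertices `g v_i`. -/
def graph : SimpleGraph (ℕ × G) := SimpleGraph.fromRel fun p q => (p.1, q.2⁻¹ * p.2) ∈ D.T q.1

theorem cj_comm_aux {p q : ℕ × G} (h : (p.1, q.2⁻¹ * p.2) ∈ D.T q.1) :
    Commute (D.cj k q) (D.cj k p) := by
  have h1 := D.v_comm k h
  have h2 : Commute (D.ι k q.2 * D.v k q.1 * (D.ι k q.2)⁻¹)
      (D.ι k q.2 * D.cj k (p.1, q.2⁻¹ * p.2) * (D.ι k q.2)⁻¹) := by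
    have := h1.map (MulAut.conj (D.ι k q.2)).toMonoidHom
    simpa [MulAut.conj_apply] using this
  have h3 : D.ι k q.2 * D.cj k (p.1, q.2⁻¹ * p.2) * (D.ι k q.2)⁻¹ = D.cj k p := by
    simp only [cj, map_mul, map_inv]
    group
  rw [h3] at h2
  exact h2

theorem cj_comm {p q : ℕ × G} (h : D.graph.Adj p q) : Commute (D.cj k p) (D.cj k q) := by
  rw [graph, SimpleGraph.fromRel_adj] at h
  rcases h.2 with h1 | h1
  · exact (D.cj_comm_aux h1).symm
  · exact D.cj_comm_aux h1

variable (k)

/-- The subgraph on the neighbours of `v_k` in the orbits before. -/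
abbrev lk : SimpleGraph {p // p ∈ D.T k} := D.graph.comap Subtype.val

/-- The homomorphism from the right-angled Artin group of the neighbours. -/
def emb : RAAG (D.lk k) →* D.Grp k :=
  raagLift (fun p => D.cj k p.1) fun _ _ hab => D.cj_comm hab

@[simp]
theorem emb_of (p : {p // p ∈ D.T k}) : D.emb k (PresentedGroup.of p) = D.cj k p.1 :=
  raagLift_of _ _ _

theorem emb_injective : Injective (D.emb k) := by
  classical
  let R := RAAG (D.lk k)
  let y : ℕ × G → R := fun p => if h : p ∈ D.T k then PresentedGroup.of ⟨p, h⟩ else 1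
  have hy : ∀ p, p ∉ D.T k → y p = 1 := fun p hp => dif_neg hp
  have hyc : ∀ p q, (p.1, q.2⁻¹ * p.2) ∈ D.T q.1 → Commute (y q) (y p) := by
    intro p q hpq
    by_cases hp : p ∈ D.T k
    · by_cases hq : q ∈ D.T k
      · have h1 : y p = PresentedGroup.of ⟨p, hp⟩ := dif_pos hp
        have h2 : y q = PresentedGroup.of ⟨q, hq⟩ := dif_pos hq
        rw [h1, h2]
        apply raag_comm
        rw [SimpleGraph.comap_adj, graph, SimpleGraph.fromRel_adj]
        refine ⟨?_, Or.inr hpq⟩
        intro h3
        have h4 : p.1 < q.1 := D.lt q.1 (p.1, q.2⁻¹ * p.2) hpq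
        have h5 : q.1 = p.1 := congrArg Prod.fst h3
        exact absurd h5 h4.ne'
      · rw [hy q hq]
        exact Commute.one_left _
    · rw [hy p hp]
      exact Commute.one_right _
  have hconj : ∀ (g : G) (a : G → R),
      (RegularWreathProduct.inl g : RegularWreathProduct R G) * ⟨a, 1⟩ *
        (RegularWreathProduct.inl g)⁻¹ = ⟨fun n => a (g⁻¹ * n), 1⟩ := by
    intro g a
    ext n
    · simp
    · simp
  let Φ : D.Grp k →* RegularWreathProduct R G :=
    D.lift k RegularWreathProduct.inl (fun j => ⟨fun n => y (j, n⁻¹), 1⟩) (by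
      intro i p hp
      rw [hconj]
      have h1 : ∀ n : G, Commute (y (i, n⁻¹)) (y (p.1, (p.2⁻¹ * n)⁻¹)) := by
        intro n
        apply hyc
        have h2 : ((p.1, (p.2⁻¹ * n)⁻¹) : ℕ × G).1 = p.1 := rfl
        simpa using hp
      refine RegularWreathProduct.ext ?_ ?_
      · funext n
        have h3 := (h1 n).eq
        simpa using h3
      · rfl) (by
      intro i hi
      refine RegularWreathProduct.ext ?_ rfl
      funext n
      refine hy _ fun h1 => ?_
      exact absurd (D.lt k _ h1) (not_lt.2 hi))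
  have hΦ : ∀ p, Φ (D.cj k p) = ⟨fun n => y (p.1, n⁻¹ * p.2), 1⟩ := by
    intro p
    rw [lift_cj, hconj]
    refine RegularWreathProduct.ext ?_ rfl
    funext n
    simp
  let ψ : R →* RegularWreathProduct R G := Φ.comp (D.emb k)
  have hψ : ∀ x, (ψ x).right = 1 := by
    intro x
    have h1 : (RegularWreathProduct.rightHom : RegularWreathProduct R G →* G).comp ψ = 1 := by
      apply raag_hom_ext
      intro p
      change (Φ (D.emb k (PresentedGroup.of p))).right = 1
      rw [emb_of, hΦ]
    exact DFunLike.congr_fun h1 x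
  let θ : R →* R :=
    { toFun := fun x => (ψ x).left 1
      map_one' := by simp
      map_mul' := fun a b => by
        have h1 := hψ a
        simp [h1] }
  have hθ : θ = MonoidHom.id R := by
    apply raag_hom_ext
    intro p
    change (Φ (D.emb k (PresentedGroup.of p))).left 1 = PresentedGroup.of p
    rw [emb_of, hΦ]
    have h2 : y p.1 = PresentedGroup.of p := dif_pos p.2
    simpa using h2
  intro a b hab
  have h1 : θ a = θ b := by
    change (Φ (D.emb k a)).left 1 = (Φ (D.emb k b)).left 1
    rw [hab]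
  rwa [hθ] at h1

/-- The homomorphism to the group with one more orbit. -/
def inc : D.Grp k →* D.Grp (k + 1) :=
  D.lift k (D.ι (k + 1)) (fun i => if i < k then D.v (k + 1) i else 1) (by
    intro i p hp
    by_cases hi : i < k
    · have h1 : p.1 < k := (D.lt i p hp).trans hi
      simp only [if_pos hi, if_pos h1]
      exact D.v_comm (k + 1) hp
    · simp only [if_neg hi]
      exact Commute.one_left _) fun i hi => if_neg (not_lt.2 hi)

@[simp]
theorem inc_ι (g : G) : D.inc k (D.ι k g) = D.ι (k + 1) g := D.lift_ι g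

theorem inc_v {i : ℕ} (hi : i < k) : D.inc k (D.v k i) = D.v (k + 1) i :=
  (D.lift_v i).trans (if_pos hi)

theorem inc_cj {p : ℕ × G} (hp : p.1 < k) : D.inc k (D.cj k p) = D.cj (k + 1) p := by
  rw [cj, map_mul, map_mul, map_inv, inc_ι, inc_v D k hp]
  rfl

theorem comm_stable (x : RAAG (D.lk k)) (n : Multiplicative ℤ) :
    Commute ((D.inc k).comp (D.emb k) x) (zpowersHom (D.Grp (k + 1)) (D.v (k + 1) k) n) := by
  have h1 : Commute (D.v (k + 1) k) ((D.inc k).comp (D.emb k) x) := by
    have h2 : (MulAut.conj (D.v (k + 1) k)).toMonoidHom.comp ((D.inc k).comp (D.emb k)) =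
        (D.inc k).comp (D.emb k) := by
      apply raag_hom_ext
      intro p
      change D.v (k + 1) k * D.inc k (D.emb k (PresentedGroup.of p)) * (D.v (k + 1) k)⁻¹ =
        D.inc k (D.emb k (PresentedGroup.of p))
      rw [emb_of, inc_cj D k (D.lt k _ p.2), mul_inv_eq_iff_eq_mul]
      exact D.v_comm (k + 1) p.2
    have h3 := DFunLike.congr_fun h2 x
    change D.v (k + 1) k * (D.inc k).comp (D.emb k) x * (D.v (k + 1) k)⁻¹ =
      (D.inc k).comp (D.emb k) x at h3
    rwa [mul_inv_eq_iff_eq_mul] at h3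
  rw [zpowersHom_apply]
  exact (h1.zpow_left _).symm

/-- The second factor of the amalgamated product. -/
def stab : RAAG (D.lk k) × Multiplicative ℤ →* D.Grp (k + 1) :=
  MonoidHom.noncommCoprod ((D.inc k).comp (D.emb k)) (zpowersHom (D.Grp (k + 1)) (D.v (k + 1) k))
    (D.comm_stable k)

theorem stab_apply (x : RAAG (D.lk k)) (n : Multiplicative ℤ) :
    D.stab k (x, n) = D.inc k (D.emb k x) * (D.v (k + 1) k) ^ (Multiplicative.toAdd n) := by
  rw [stab, MonoidHom.noncommCoprod_apply, zpowersHom_apply]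
  rfl

/-- One more orbit: an amalgamated product over a right-angled Artin group. -/
theorem amalg : IsAmalg (D.emb k) (MonoidHom.inl (RAAG (D.lk k)) (Multiplicative ℤ))
    (D.inc k) (D.stab k) := by
  refine ⟨?_, ?_, ?_⟩
  · refine MonoidHom.ext fun x => ?_
    change D.inc k (D.emb k x) = D.stab k (x, 1)
    rw [stab_apply, toAdd_one, zpow_zero, mul_one]
  · intro M _ f g hfg
    have hfg' : ∀ x, f (D.emb k x) = g (x, 1) := fun x => DFunLike.congr_fun hfg x
    let x : ℕ → M := fun i => if i < k then f (D.v k i) else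
      if i = k then g (1, Multiplicative.ofAdd 1) else 1
    have hx1 : ∀ i, i < k → x i = f (D.v k i) := fun i hi => if_pos hi
    have hx2 : x k = g (1, Multiplicative.ofAdd 1) :=
      (if_neg (lt_irrefl k)).trans (if_pos rfl)
    have hx3 : ∀ i, k < i → x i = 1 := fun i hi =>
      (if_neg (not_lt.2 hi.le)).trans (if_neg hi.ne')
    let h : D.Grp (k + 1) →* M := D.lift (k + 1) (f.comp (D.ι k)) x (by
      intro i p hp
      have hlt := D.lt i p hp
      rcases lt_trichotomy i k with hi | hi | hi
      · rw [hx1 i hi, hx1 p.1 (hlt.trans hi)]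
        have h1 := (D.v_comm k hp).map f
        simpa [cj] using h1
      · subst hi
        rw [hx2, hx1 p.1 hlt]
        have h1 : f (D.cj i p) = g (PresentedGroup.of ⟨p, hp⟩, 1) := by
          rw [← hfg', emb_of]
        have h2 : (f.comp (D.ι i)) p.2 * f (D.v i p.1) * ((f.comp (D.ι i)) p.2)⁻¹ =
            f (D.cj i p) := by
          simp [cj]
        rw [h2, h1]
        apply Commute.map
        rw [Prod.commute_iff]
        exact ⟨Commute.one_left _, Commute.one_right _⟩
      · rw [hx3 i hi]
        exact Commute.one_left _) (fun i hi => hx3 i hi)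
    have hhk : h.comp (D.inc k) = f := by
      apply D.hom_ext
      · intro g'
        rw [MonoidHom.comp_apply, inc_ι, lift_ι]
        rfl
      · intro i hi
        rw [MonoidHom.comp_apply, inc_v D k hi, lift_v, hx1 i hi]
    refine ⟨h, hhk, ?_⟩
    refine MonoidHom.ext fun z => ?_
    obtain ⟨a, n⟩ := z
    have h1 : h (D.inc k (D.emb k a)) = g (a, 1) := by
      rw [← hfg']
      exact DFunLike.congr_fun hhk _
    rw [MonoidHom.comp_apply, stab_apply, map_mul, map_zpow, h1, lift_v, hx2, ← map_zpow,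
      ← map_mul]
    congr 1
    rw [Prod.ext_iff]
    refine ⟨by simp, ?_⟩
    simp only [Prod.snd_mul, Prod.pow_snd, one_mul]
    rw [← ofAdd_zsmul, smul_eq_mul, mul_one, ofAdd_toAdd]
  · intro M _ h h' h1 h2
    apply D.hom_ext
    · intro g
      rw [← inc_ι]
      exact DFunLike.congr_fun h1 _
    · intro i hi
      rcases (Nat.lt_succ_iff_lt_or_eq.1 hi) with hi | hi
      · rw [← inc_v D k hi]
        exact DFunLike.congr_fun h1 _
      · subst hi
        have h3 : D.v (i + 1) i = D.stab i (1, Multiplicative.ofAdd 1) := by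
          rw [stab_apply]
          simp
        rw [h3]
        exact DFunLike.congr_fun h2 _

end Datum

end Pool.Agent.H16.BB
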