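import Mathlib
import Pool.Agent.H16.BB.Chain

/-!
The kernels `kerGrp X D k` as iterated amalgamated products, and the consequences for a functor
`S` with exact middle terms of Mayer-Vietoris sequences which vanishes for subgroups of finitely
generated right-angled Artin groups.
-/

set_option autoImplicit false

namespace Pool.Agent.H16.BB

open Function CategoryTheory

universe u

/-- Amalgamated products are pushouts of groups with characters. -/
theorem IsAmalg.isPushout {C A B P : OGrp} (i : C ⟶ A) (j : C ⟶ B) (k : A ⟶ P) (l : B ⟶ P)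
    (H : IsAmalg i.f j.f k.f l.f) : IsPushout i j k l := by
  have hw : i ≫ k = j ≫ l := OGrp.Hom.ext H.comm
  have hd : ∀ s : Limits.PushoutCocone i j, ∃ h : P ⟶ s.pt, k ≫ h = s.inl ∧ l ≫ h = s.inr := by
    intro s
    obtain ⟨h, h1, h2⟩ := H.desc s.pt.G s.inl.f s.inr.f (congrArg OGrp.Hom.f s.condition)
    refine ⟨⟨h, ?_⟩, OGrp.Hom.ext h1, OGrp.Hom.ext h2⟩
    apply H.uniq
    · rw [MonoidHom.comp_assoc, h1, s.inl.w_f, k.w_f]
    · rw [MonoidHom.comp_assoc, h2, s.inr.w_f, l.w_f]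
  choose d hd1 hd2 using hd
  refine ⟨⟨hw⟩, ⟨Limits.PushoutCocone.IsColimit.mk hw d hd1 hd2 ?_⟩⟩
  intro s m h1 h2
  apply OGrp.Hom.ext
  apply H.uniq
  · have h3 : (k ≫ m).f = (k ≫ d s).f := by rw [h1, hd1]
    exact h3
  · have h3 : (l ≫ m).f = (l ≫ d s).f := by rw [h2, hd2]
    exact h3

namespace Datum

variable {G : Type} [Group G] (D : Datum G) (k : ℕ)

theorem deg_ι (g : G) : D.deg k (D.ι k g) = 1 := D.lift_ι g

theorem deg_v {i : ℕ} (hi : i < k) : D.deg k (D.v k i) = Multiplicative.ofAdd 1 :=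
  (D.lift_v i).trans (if_pos hi)

theorem ret_ι (g : G) : D.ret k (D.ι k g) = g := D.lift_ι g

theorem ret_v (i : ℕ) : D.ret k (D.v k i) = 1 := D.lift_v i

theorem deg_cj {p : ℕ × G} (hp : p.1 < k) : D.deg k (D.cj k p) = Multiplicative.ofAdd 1 := by
  rw [cj, map_mul, map_mul, map_inv, deg_ι, deg_v D k hp, one_mul, inv_one, mul_one]

theorem ret_cj (p : ℕ × G) : D.ret k (D.cj k p) = 1 := by
  rw [cj, map_mul, map_mul, map_inv, ret_v, mul_one, mul_inv_cancel]

theorem deg_inc : (D.deg (k + 1)).comp (D.inc k) = D.deg k := by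
  apply D.hom_ext
  · intro g
    rw [MonoidHom.comp_apply, inc_ι, deg_ι, deg_ι]
  · intro i hi
    rw [MonoidHom.comp_apply, inc_v D k hi, deg_v D _ (hi.trans (Nat.lt_succ_self k)),
      deg_v D k hi]

theorem ret_inc : (D.ret (k + 1)).comp (D.inc k) = D.ret k := by
  apply D.hom_ext
  · intro g
    rw [MonoidHom.comp_apply, inc_ι, ret_ι, ret_ι]
  · intro i hi
    rw [MonoidHom.comp_apply, inc_v D k hi, ret_v, ret_v]

/-- The degree on the right-angled Artin group. -/
def degC : RAAG (D.lk k) →* Multiplicative ℤ := (D.deg k).comp (D.emb k)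

/-- The degree on the second factor. -/
def degB : RAAG (D.lk k) × Multiplicative ℤ →* Multiplicative ℤ :=
  (D.deg (k + 1)).comp (D.stab k)

theorem degB_inl : (D.degB k).comp (MonoidHom.inl _ _) = D.degC k := by
  rw [degB, degC, MonoidHom.comp_assoc, ← (D.amalg k).comm, ← MonoidHom.comp_assoc, deg_inc]

/-- The kernels form an amalgamated product. -/
theorem ker_amalg (hk : 0 < k) : IsAmalg (kerMap (φA := D.degC k) (k := D.emb k) rfl)
    (kerMap (D.degB_inl k)) (kerMap (D.deg_inc k))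
    (kerMap (φA := D.degB k) (k := D.stab k) rfl) := by
  obtain ⟨p, hp⟩ := D.ne k hk
  refine (D.amalg k).ker rfl (D.degB_inl k) (D.deg_inc k) rfl
    (zpowersHom (RAAG (D.lk k)) (PresentedGroup.of ⟨p, hp⟩)) ?_
  intro q
  have h1 : D.degC k (PresentedGroup.of ⟨p, hp⟩) = Multiplicative.ofAdd 1 := by
    change D.deg k (D.emb k (PresentedGroup.of ⟨p, hp⟩)) = _
    rw [emb_of, deg_cj D k (D.lt k p hp)]
  change D.degC k (zpowersHom (RAAG (D.lk k)) (PresentedGroup.of ⟨p, hp⟩) q) = q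
  rw [zpowersHom_apply, map_zpow, h1, ← ofAdd_zsmul, smul_eq_mul, mul_one, ofAdd_toAdd]

/-- The first group is the free product of `G` and the integers. -/
theorem amalg_one : IsAmalg (1 : Unit →* G) (1 : Unit →* Multiplicative ℤ) (D.ι 1)
    (zpowersHom (D.Grp 1) (D.v 1 0)) := by
  have h0 : ∀ p, p ∉ D.T 0 := fun p hp => absurd (D.lt 0 p hp) (Nat.not_lt_zero _)
  refine ⟨?_, ?_, ?_⟩
  · rw [MonoidHom.comp_one, MonoidHom.comp_one]
  · intro M _ f g _
    refine ⟨D.lift 1 f (fun i => if i = 0 then g (Multiplicative.ofAdd 1) else 1) ?_ ?_, ?_, ?_⟩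
    · intro i p hp
      by_cases hi : i = 0
      · subst hi
        exact absurd hp (h0 p)
      · simp only [if_neg hi]
        exact Commute.one_left _
    · intro i hi
      exact if_neg (Nat.one_le_iff_ne_zero.1 hi)
    · ext a
      rw [MonoidHom.comp_apply, lift_ι]
    · ext
      rw [MonoidHom.comp_apply, zpowersHom_apply, map_zpow, lift_v]
      simp
  · intro M _ h h' h1 h2
    apply D.hom_ext
    · intro g
      exact DFunLike.congr_fun h1 g
    · intro i hi
      obtain rfl : i = 0 := Nat.lt_one_iff.1 hi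
      have h3 := DFunLike.congr_fun h2 (Multiplicative.ofAdd 1)
      simpa [zpowersHom_apply] using h3

theorem isFree_one : IsFree (conjMap (φ := D.deg 1) (D.ι 1) (zpowersHom (D.Grp 1) (D.v 1 0))
    (D.deg_ι 1)) := by
  refine isFree_ker D.amalg_one (D.deg_ι 1) ?_
  intro q
  rw [zpowersHom_apply, map_zpow, deg_v D 1 Nat.zero_lt_one, ← ofAdd_zsmul, smul_eq_mul, mul_one,
    ofAdd_toAdd]

end Datum

/-- The unique map from the trivial group. -/
def fromOne (X : OGrp) : one ⟶ X := OGrp.Hom.mk 1 (by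
  ext x; rw [MonoidHom.comp_apply, MonoidHom.one_apply, map_one]; rfl)

theorem fromOne_injective (X : OGrp) : Injective (fromOne X).f := fun a b _ =>
  Subsingleton.elim (α := Unit) a b

/-- The character of the kernel. -/
theorem kerGrp_w_conj (X : OGrp) (D : Datum X.G) (n : Multiplicative ℤ) :
    (kerGrp X D 1).w.comp (conjMap (φ := D.deg 1) (D.ι 1) (zpowersHom (D.Grp 1) (D.v 1 0))
      (D.deg_ι 1) n) = X.w := by
  ext g
  have h1 : D.ret 1 (zpowersHom (D.Grp 1) (D.v 1 0) n) = 1 := by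
    rw [zpowersHom_apply, map_zpow, Datum.ret_v, one_zpow]
  have h2 : D.ret 1 (zpowersHom (D.Grp 1) (D.v 1 0) n * D.ι 1 g *
      (zpowersHom (D.Grp 1) (D.v 1 0) n)⁻¹) = g := by
    rw [map_mul, map_mul, map_inv, h1, Datum.ret_ι, one_mul, inv_one, mul_one]
  change (X.w (D.ret 1 (zpowersHom (D.Grp 1) (D.v 1 0) n * D.ι 1 g *
    (zpowersHom (D.Grp 1) (D.v 1 0) n)⁻¹)) : ℤ) = X.w g
  rw [h2]

/-- The first kernel is the free product of `X` and of itself. -/
theorem kerGrp_one_pushout (X : OGrp) (D : Datum X.G) :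
    ∃ (a : X ⟶ kerGrp X D 1) (b : kerGrp X D 1 ⟶ kerGrp X D 1),
      IsPushout (fromOne X) (fromOne (kerGrp X D 1)) a b := by
  let e : Option (Multiplicative ℤ) ≃ Multiplicative ℤ :=
    (Denumerable.equiv₂ (Option ℤ) ℤ : Option ℤ ≃ ℤ)
  obtain ⟨l, hl, H⟩ := D.isFree_one.amalg e
  let a : X ⟶ kerGrp X D 1 := OGrp.Hom.mk (conjMap (φ := D.deg 1) (D.ι 1)
    (zpowersHom (D.Grp 1) (D.v 1 0)) (D.deg_ι 1) (e none)) (kerGrp_w_conj X D _)
  let b : kerGrp X D 1 ⟶ kerGrp X D 1 := OGrp.Hom.mk l (by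
    apply D.isFree_one.uniq
    intro n
    have h1 : ((kerGrp X D 1).w.comp l).comp (conjMap (φ := D.deg 1) (D.ι 1)
        (zpowersHom (D.Grp 1) (D.v 1 0)) (D.deg_ι 1) n) = (kerGrp X D 1).w.comp
          (conjMap (φ := D.deg 1) (D.ι 1) (zpowersHom (D.Grp 1) (D.v 1 0)) (D.deg_ι 1)
            (e (some n))) := by
      rw [← hl]
      rfl
    exact (h1.trans (kerGrp_w_conj X D _)).trans (kerGrp_w_conj X D _).symm)
  exact ⟨a, b, IsAmalg.isPushout (fromOne X) (fromOne (kerGrp X D 1)) a b H⟩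

variable {S : Fun.{u}}

theorem Hm.map_zero' {P Q : Type u} [AddCommGroup P] [AddCommGroup Q] (s : Hm P Q) : s 0 = 0 :=
  map_zero s.hom

theorem Hm.injective_iff' {P Q : Type u} [AddCommGroup P] [AddCommGroup Q] (s : Hm P Q) :
    Injective s.f ↔ ∀ x, s x = 0 → x = 0 :=
  injective_iff_map_eq_zero s.hom

/-- The middle terms of the Mayer-Vietoris sequences of amalgamated products are exact. -/
def MidExact (S : Fun.{u}) : Prop :=
  ∀ {Y X₁ X₂ Z : OGrp} {i : Y ⟶ X₁} {j : Y ⟶ X₂} {k₁ : X₁ ⟶ Z} {k₂ : X₂ ⟶ Z},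
    IsPushout i j k₁ k₂ → Injective i.f → Injective j.f → Mid S i j k₁ k₂

/-- The functor vanishes for subgroups of finitely generated right-angled Artin groups. -/
def ZeroRAAG (S : Fun.{u}) : Prop :=
  ∀ (V : Type) [Finite V] (Γ : SimpleGraph V) (Y : OGrp) (c : Y.G →* RAAG Γ), Injective c →
    ∀ n (s : S.obj n Y), s = 0

/-- One more orbit. -/
theorem kerGrp_succ (hmid : MidExact S) (hz : ZeroRAAG S) (X : OGrp) (D : Datum X.G) (k : ℕ)
    (hk : 0 < k) :
    ∃ f : kerGrp X D k ⟶ kerGrp X D (k + 1), ∀ n, Injective (S.map n f) := by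
  have H := D.ker_amalg k hk
  let P := kerGrp X D (k + 1)
  let f : kerGrp X D k ⟶ P := OGrp.Hom.mk (kerMap (D.deg_inc k)) (by
    refine MonoidHom.ext fun x => ?_
    change X.w (D.ret (k + 1) (D.inc k x.1)) = X.w (D.ret k x.1)
    exact congrArg X.w (DFunLike.congr_fun (D.ret_inc k) x.1))
  let B : OGrp := ⟨(D.degB k).ker, P.w.comp (kerMap (φA := D.degB k) (k := D.stab k) rfl)⟩
  let C : OGrp := ⟨(D.degC k).ker,
    (kerGrp X D k).w.comp (kerMap (φA := D.degC k) (k := D.emb k) rfl)⟩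
  let i : C ⟶ kerGrp X D k := OGrp.Hom.mk (kerMap (φA := D.degC k) (k := D.emb k) rfl) rfl
  let l : B ⟶ P := OGrp.Hom.mk (kerMap (φA := D.degB k) (k := D.stab k) rfl) rfl
  let j : C ⟶ B := OGrp.Hom.mk (kerMap (D.degB_inl k)) (by
    refine MonoidHom.ext fun x => ?_
    have h1 := DFunLike.congr_fun H.comm x
    have h2 := DFunLike.congr_fun f.w_f (kerMap (φA := D.degC k) (k := D.emb k) rfl x)
    exact (congrArg P.w h1).symm.trans h2)
  have hi : Injective i.f :=
    kerMap_injective (φA := D.degC k) (φP := D.deg k) rfl (D.emb_injective k)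
  have hj : Injective j.f :=
    kerMap_injective (D.degB_inl k) fun a b hab => congrArg Prod.fst hab
  have hpush : IsPushout i j f l := IsAmalg.isPushout i j f l H
  refine ⟨f, fun n => ?_⟩
  have hm := hmid hpush hi hj n
  rw [Hm.injective_iff']
  intro s hs
  obtain ⟨a, ha, -⟩ := (hm s 0).1 (by rw [hs, Hm.map_zero'])
  have ha0 : a = 0 := hz _ (D.lk k) C (D.degC k).ker.subtype Subtype.val_injective n a
  rw [← ha, ha0, Hm.map_zero']

/-- All orbits. -/
theorem kerGrp_chain (hmid : MidExact S) (hz : ZeroRAAG S) (X : OGrp) (D : Datum X.G) (k : ℕ)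
    (hk : 0 < k) :
    ∃ f : kerGrp X D 1 ⟶ kerGrp X D k, ∀ n, Injective (S.map n f) := by
  induction k with
  | zero => exact absurd hk (lt_irrefl 0)
  | succ k ih =>
    rcases Nat.eq_zero_or_pos k with rfl | hk
    · refine ⟨𝟙 _, fun n => ?_⟩
      intro s t hst
      rwa [S.map_id, S.map_id] at hst
    · obtain ⟨f, hf⟩ := ih hk
      obtain ⟨g, hg⟩ := kerGrp_succ hmid hz X D k hk
      refine ⟨f ≫ g, fun n s t hst => ?_⟩
      rw [S.map_comp, S.map_comp] at hst
      exact hf n (hg n hst)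

/-- The sum of `S(X)` and `S(K)` embeds in `S(K)` for the first kernel `K`. -/
theorem kerGrp_one_inj (hmid : MidExact S) (hone : ∀ n (s : S.obj n one), s = 0) (X : OGrp)
    (D : Datum X.G) :
    ∃ (a : X ⟶ kerGrp X D 1) (b : kerGrp X D 1 ⟶ kerGrp X D 1), ∀ n s t,
      S.map n a s + S.map n b t = 0 → s = 0 ∧ t = 0 := by
  obtain ⟨a, b, H⟩ := kerGrp_one_pushout X D
  refine ⟨a, b, fun n s t hst => ?_⟩
  have hm := hmid H (fromOne_injective _) (fromOne_injective _) n s (-t)
  obtain ⟨c, hc1, hc2⟩ := hm.1 (by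
    have h1 : S.map n b (-t) = -(S.map n b t) := map_neg (S.map n b).hom t
    rw [h1]
    exact eq_neg_of_add_eq_zero_left hst)
  rw [hone n c, Hm.map_zero'] at hc1 hc2
  exact ⟨hc1.symm, by rw [← neg_neg t, ← hc2, neg_zero]⟩

/-- If `S(K)` is finitely generated for the kernel `K`, then `S(X) = 0`. -/
theorem zero_of_finite (hmid : MidExact S) (hz : ZeroRAAG S) (hone : ∀ n (s : S.obj n one), s = 0)
    (X : OGrp) (D : Datum X.G) (k : ℕ) (hk : 0 < k) (n : ℤ)
    (hfin : Module.Finite ℤ (S.obj n (kerGrp X D k))) (s : S.obj n X) : s = 0 := by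
  obtain ⟨f, hf⟩ := kerGrp_chain hmid hz X D k hk
  obtain ⟨a, b, hab⟩ := kerGrp_one_inj hmid hone X D
  have hN : IsNoetherian ℤ (S.obj n (kerGrp X D k)) := inferInstance
  have hN1 : IsNoetherian ℤ (S.obj n (kerGrp X D 1)) :=
    isNoetherian_of_injective (S.map n f).hom.toIntLinearMap (hf n)
  let F : (S.obj n (kerGrp X D 1)) × (S.obj n X) →ₗ[ℤ] S.obj n (kerGrp X D 1) :=
    LinearMap.coprod (S.map n b).hom.toIntLinearMap (S.map n a).hom.toIntLinearMap
  have hF : Injective F := by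
    rw [injective_iff_map_eq_zero]
    rintro ⟨t, s⟩ hst
    have h1 : S.map n a s + S.map n b t = 0 := by
      rw [add_comm]
      exact hst
    obtain ⟨h2, h3⟩ := hab n s t h1
    rw [h2, h3]
    rfl
  have h4 := (IsNoetherian.equivPUnitOfProdInjective F hF).injective
  exact h4 (Subsingleton.elim _ _)

end Pool.Agent.H16.BB
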