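import Mathlib
import Pool.Agent.H16.BB.Defs

/-!
Groups with a finite classifying space: groups which act freely on a contractible flag complex,
with finitely many orbits of vertices.
-/

set_option autoImplicit false

namespace Pool.Agent.H16.BB

variable {G : Type} [Group G]

/-- The graph with vertices `(i, g)`, standing for `g v_i`, given by the representatives `T i` of
the edges: `(j, g)` and `(i, h)` with `j < i` are adjacent if `(j, h⁻¹ g) ∈ T i`. -/
def Datum.edges (D : Datum G) : SimpleGraph (ℕ × G) :=
  SimpleGraph.fromRel fun p q => (p.1, q.2⁻¹ * p.2) ∈ D.T q.1

/-- The simplices of the flag complex: nonempty finite cliques of vertices in the first `m`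
orbits. -/
abbrev Datum.Simplex (D : Datum G) : Type :=
  {s : Finset (ℕ × G) // s.Nonempty ∧ (∀ p ∈ s, p.1 < D.m) ∧ D.edges.IsClique s}

/-- The flag complex (the geometric realisation of the ordered set of its simplices) is
contractible. -/
def Datum.Contractible (D : Datum G) : Prop :=
  ContractibleSpace (SSet.toTop.obj (CategoryTheory.nerve D.Simplex))

/-- The group acts freely on a contractible, locally finite flag complex, with finitely many orbits
of vertices and no edge between vertices of the same orbit: equivalently, it has a finite
classifying space. -/
def TypeF (G : Type) [Group G] : Prop := ∃ D : Datum G, 0 < D.m ∧ D.Contractible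

end Pool.Agent.H16.BB
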